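import Pool.Agent.Q62.CC.Stm

/-!
# Project CC (helper62), job CC-36 (helper252): bounds of the coefficients
-/

set_option autoImplicit false

open Set Filter Topology MeasureTheory

namespace Pool.Agent.Q252.CC

open Pool.Agent.Q62.CC

namespace Bnd

lemma subst (f : ℝ → ℝ) (α x : ℝ) :
    ∫ y in α..x, f y = (x - α) * ∫ s in (0 : ℝ)..1, f (α + (x - α) * s) := by
  have h := intervalIntegral.smul_integral_comp_add_mul f (x - α) α (a := 0) (b := 1)
  rw [smul_eq_mul] at h
  rw [h]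
  congr 1 <;> ring

lemma int_bound {h : ℝ → ℝ} {α x B : ℝ} {n : ℕ}
    (hb : ∀ s ∈ Icc (0 : ℝ) 1, |h (α + (x - α) * s)| ≤ B * |x - α| ^ n * s ^ n) :
    |∫ y in α..x, h y| ≤ B * |x - α| ^ (n + 1) / (n + 1) := by
  rw [subst, abs_mul]
  have h1 : |∫ s in (0 : ℝ)..1, h (α + (x - α) * s)| ≤ ∫ s in (0 : ℝ)..1, B * |x - α| ^ n * s ^ n := by
    rw [← Real.norm_eq_abs]
    refine intervalIntegral.norm_integral_le_of_norm_le zero_le_one ?_ ?_
    · refine Filter.Eventually.of_forall fun s hs => ?_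
      rw [Real.norm_eq_abs]
      exact hb s (Ioc_subset_Icc_self hs)
    · exact (Continuous.intervalIntegrable (by fun_prop) 0 1)
  have h2 : ∫ s in (0 : ℝ)..1, B * |x - α| ^ n * s ^ n = B * |x - α| ^ n / (n + 1) := by
    rw [intervalIntegral.integral_const_mul, integral_pow]
    simp
    ring
  rw [h2] at h1
  calc |x - α| * |∫ s in (0 : ℝ)..1, h (α + (x - α) * s)| ≤ |x - α| * (B * |x - α| ^ n / (n + 1)) :=
        mul_le_mul_of_nonneg_left h1 (abs_nonneg _)
    _ = B * |x - α| ^ (n + 1) / (n + 1) := by ring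

lemma int_bound2 {h : ℝ → ℝ} {α x B : ℝ} {n : ℕ}
    (hb : ∀ s ∈ Icc (0 : ℝ) 1, |h (α + (x - α) * s)| ≤ B * |x - α| ^ n * s ^ n) :
    |∫ y in α..x, (x - y) * h y| ≤ B * |x - α| ^ (n + 2) / ((n + 1) * (n + 2)) := by
  rw [subst, abs_mul]
  have h1 : |∫ s in (0 : ℝ)..1, (x - (α + (x - α) * s)) * h (α + (x - α) * s)| ≤
      ∫ s in (0 : ℝ)..1, B * |x - α| ^ (n + 1) * (s ^ n - s ^ (n + 1)) := by
    rw [← Real.norm_eq_abs]
    refine intervalIntegral.norm_integral_le_of_norm_le zero_le_one ?_ ?_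
    · refine Filter.Eventually.of_forall fun s hs => ?_
      rw [Real.norm_eq_abs, abs_mul]
      have h3 := hb s (Ioc_subset_Icc_self hs)
      have h4 : |x - (α + (x - α) * s)| = |x - α| * (1 - s) := by
        have : x - (α + (x - α) * s) = (x - α) * (1 - s) := by ring
        rw [this, abs_mul, abs_of_nonneg (by linarith [hs.2] : (0 : ℝ) ≤ 1 - s)]
      rw [h4]
      calc |x - α| * (1 - s) * |h (α + (x - α) * s)| ≤ |x - α| * (1 - s) * (B * |x - α| ^ n * s ^ n) :=
            mul_le_mul_of_nonneg_left h3 (mul_nonneg (abs_nonneg _) (by linarith [hs.2]))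
        _ = B * |x - α| ^ (n + 1) * (s ^ n - s ^ (n + 1)) := by ring
    · exact (Continuous.intervalIntegrable (by fun_prop) 0 1)
  have h2 : ∫ s in (0 : ℝ)..1, B * |x - α| ^ (n + 1) * (s ^ n - s ^ (n + 1)) =
      B * |x - α| ^ (n + 1) / ((n + 1) * (n + 2)) := by
    rw [intervalIntegral.integral_const_mul, intervalIntegral.integral_sub, integral_pow, integral_pow]
    · simp
      have h5 : (n : ℝ) + 1 ≠ 0 := by positivity
      have h6 : (n : ℝ) + 1 + 1 ≠ 0 := by positivity
      have h7 : (n : ℝ) + 2 ≠ 0 := by positivity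
      field_simp
      ring
    · exact (Continuous.intervalIntegrable (by fun_prop) 0 1)
    · exact (Continuous.intervalIntegrable (by fun_prop) 0 1)
  rw [h2] at h1
  calc |x - α| * |∫ s in (0 : ℝ)..1, (x - (α + (x - α) * s)) * h (α + (x - α) * s)| ≤
        |x - α| * (B * |x - α| ^ (n + 1) / ((n + 1) * (n + 2))) :=
        mul_le_mul_of_nonneg_left h1 (abs_nonneg _)
    _ = B * |x - α| ^ (n + 2) / ((n + 1) * (n + 2)) := by ring

end Bnd

open Bnd

/-- **JOB CC-36** -/
theorem t_BND (_ : S_DER) : S_BND := by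
  intro m x₀ x₁ α β M c hW
  have hα : α ∈ Ioo x₀ x₁ := ⟨hW.h0, hW.hab.trans hW.h1⟩
  have hM : 0 < M := (hW.pos α hα).trans_le (hW.le α hα)
  have hmem : ∀ x ∈ Ioo x₀ x₁, ∀ s ∈ Icc (0 : ℝ) 1, α + (x - α) * s ∈ Ioo x₀ x₁ := by
    intro x hx s hs
    have h1 := (convex_Ioo x₀ x₁).add_smul_sub_mem hα hx hs
    rw [smul_eq_mul, mul_comm] at h1
    exact h1
  -- multiplication by the weight
  have hmul : ∀ (g : ℝ → ℝ) (B : ℝ) (n : ℕ), (∀ y ∈ Ioo x₀ x₁, |g y| ≤ B * |y - α| ^ n) →
      ∀ x ∈ Ioo x₀ x₁, ∀ s ∈ Icc (0 : ℝ) 1,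
        |m (α + (x - α) * s) * g (α + (x - α) * s)| ≤ M * B * |x - α| ^ n * s ^ n := by
    intro g B n hg x hx s hs
    have h1 := hmem x hx s hs
    have h2 := hg _ h1
    have h3 : |α + (x - α) * s - α| = |x - α| * s := by
      have : α + (x - α) * s - α = (x - α) * s := by ring
      rw [this, abs_mul, abs_of_nonneg hs.1]
    rw [h3, mul_pow] at h2
    rw [abs_mul, abs_of_pos (hW.pos _ h1)]
    calc m (α + (x - α) * s) * |g (α + (x - α) * s)| ≤ M * (B * (|x - α| ^ n * s ^ n)) :=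
          mul_le_mul (hW.le _ h1) h2 (abs_nonneg _) hM.le
      _ = M * B * |x - α| ^ n * s ^ n := by ring
  have hf : ∀ n : ℕ, ((n.factorial : ℝ)) ≠ 0 := fun n => by exact_mod_cast n.factorial_ne_zero
  have hcf : ∀ k : ℕ, ∀ x ∈ Ioo x₀ x₁, |cf m α k x| ≤ M ^ k / ((2 * k).factorial : ℝ) * |x - α| ^ (2 * k) := by
    intro k
    induction k with
    | zero =>
      intro x _
      simp [cf]
    | succ k ih =>
      intro x hx
      have h1 := int_bound2 (h := fun y => m y * cf m α k y) (B := M * (M ^ k / ((2 * k).factorial : ℝ)))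
        (n := 2 * k) (hmul _ _ _ ih x hx)
      refine h1.trans (le_of_eq ?_)
      have h2 : ((2 * (k + 1)).factorial : ℝ) = (2 * k + 2) * ((2 * k + 1) * ((2 * k).factorial : ℝ)) := by
        rw [show 2 * (k + 1) = 2 * k + 1 + 1 by ring, Nat.factorial_succ, Nat.factorial_succ]
        push_cast
        ring
      rw [h2, show 2 * (k + 1) = 2 * k + 2 by ring]
      have h3 := hf (2 * k)
      have h4 : (2 * (k : ℝ) + 1) ≠ 0 := by positivity
      have h5 : (2 * (k : ℝ) + 2) ≠ 0 := by positivity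
      push_cast
      field_simp
      ring
  have hsf : ∀ k : ℕ, ∀ x ∈ Ioo x₀ x₁, |sf m α k x| ≤ M ^ k / ((2 * k + 1).factorial : ℝ) * |x - α| ^ (2 * k + 1) := by
    intro k
    induction k with
    | zero =>
      intro x _
      simp [sf]
    | succ k ih =>
      intro x hx
      have h1 := int_bound2 (h := fun y => m y * sf m α k y) (B := M * (M ^ k / ((2 * k + 1).factorial : ℝ)))
        (n := 2 * k + 1) (hmul _ _ _ ih x hx)
      refine h1.trans (le_of_eq ?_)
      have h2 : ((2 * (k + 1) + 1).factorial : ℝ) = (2 * k + 3) * ((2 * k + 2) * ((2 * k + 1).factorial : ℝ)) := by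
        rw [show 2 * (k + 1) + 1 = 2 * k + 1 + 1 + 1 by ring, Nat.factorial_succ (2 * k + 1 + 1), Nat.factorial_succ (2 * k + 1)]
        push_cast
        ring
      rw [h2, show 2 * (k + 1) + 1 = 2 * k + 1 + 2 by ring]
      have h3 := hf (2 * k + 1)
      have h4 : (2 * (k : ℝ) + 2) ≠ 0 := by positivity
      have h5 : (2 * (k : ℝ) + 3) ≠ 0 := by positivity
      push_cast
      have h6 : (2 * (k : ℝ) + 1 + 1) = 2 * k + 2 := by ring
      have h7 : (2 * (k : ℝ) + 1 + 2) = 2 * k + 3 := by ring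
      rw [h6, h7]
      field_simp
      ring
  intro k x hx
  refine ⟨?_, ?_, ?_, ?_⟩
  · refine (hcf k x hx).trans (le_of_eq ?_)
    ring
  · refine (hsf k x hx).trans (le_of_eq ?_)
    ring
  · have h1 := int_bound (h := fun y => m y * cf m α k y) (B := M * (M ^ k / ((2 * k).factorial : ℝ)))
      (n := 2 * k) (hmul _ _ _ (hcf k) x hx)
    refine h1.trans (le_of_eq ?_)
    have h2 : ((2 * k + 1).factorial : ℝ) = (2 * k + 1) * ((2 * k).factorial : ℝ) := by
      rw [Nat.factorial_succ]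
      push_cast
      ring
    rw [h2]
    have h3 := hf (2 * k)
    have h4 : (2 * (k : ℝ) + 1) ≠ 0 := by positivity
    push_cast
    field_simp
    ring
  · cases k with
    | zero => simp [sd]
    | succ k =>
      have h1 := int_bound (h := fun y => m y * sf m α k y) (B := M * (M ^ k / ((2 * k + 1).factorial : ℝ)))
        (n := 2 * k + 1) (hmul _ _ _ (hsf k) x hx)
      refine h1.trans (le_of_eq ?_)
      have h2 : ((2 * (k + 1)).factorial : ℝ) = (2 * k + 2) * ((2 * k + 1).factorial : ℝ) := by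
        rw [show 2 * (k + 1) = 2 * k + 1 + 1 by ring, Nat.factorial_succ (2 * k + 1)]
        push_cast
        ring
      rw [h2, show 2 * (k + 1) = 2 * k + 1 + 1 by ring]
      have h3 := hf (2 * k + 1)
      have h4 : (2 * (k : ℝ) + 2) ≠ 0 := by positivity
      push_cast
      have h6 : (2 * (k : ℝ) + 1 + 1) = 2 * k + 2 := by ring
      rw [h6]
      field_simp
      ring

end Pool.Agent.Q252.CC
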