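import Pool.Agent.Q62.CC.Stm

/-!
# Project CC (helper62), job CC-37 (helper252): derivatives of the coefficients
-/

set_option autoImplicit false

open Set Filter Topology MeasureTheory

namespace Pool.Agent.Q252.CC

open Pool.Agent.Q62.CC

namespace Der

lemma prim {h : ℝ → ℝ} {x₀ x₁ α x : ℝ} (hh : ContinuousOn h (Ioo x₀ x₁)) (hα : α ∈ Ioo x₀ x₁)
    (hx : x ∈ Ioo x₀ x₁) : HasDerivAt (fun u => ∫ y in α..u, h y) (h x) x := by
  have hsub : uIcc α x ⊆ Ioo x₀ x₁ := (ordConnected_Ioo).uIcc_subset hα hx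
  refine intervalIntegral.integral_hasDerivAt_right ((hh.mono hsub).intervalIntegrable) ?_ ?_
  · exact hh.stronglyMeasurableAtFilter isOpen_Ioo x hx
  · exact hh.continuousAt (isOpen_Ioo.mem_nhds hx)

lemma conv {h : ℝ → ℝ} {x₀ x₁ α x : ℝ} (hh : ContinuousOn h (Ioo x₀ x₁)) (hα : α ∈ Ioo x₀ x₁)
    (hx : x ∈ Ioo x₀ x₁) : HasDerivAt (fun u => ∫ y in α..u, (u - y) * h y) (∫ y in α..x, h y) x := by
  have hh2 : ContinuousOn (fun y => y * h y) (Ioo x₀ x₁) := continuousOn_id.mul hh
  have h1 : HasDerivAt (fun u => u * (∫ y in α..u, h y) - ∫ y in α..u, y * h y)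
      (1 * (∫ y in α..x, h y) + x * h x - x * h x) x :=
    ((hasDerivAt_id x).mul (prim hh hα hx)).sub (prim hh2 hα hx)
  have h2 : (fun u => ∫ y in α..u, (u - y) * h y) =ᶠ[𝓝 x]
      fun u => u * (∫ y in α..u, h y) - ∫ y in α..u, y * h y := by
    filter_upwards [isOpen_Ioo.mem_nhds hx] with u hu
    have hsub : uIcc α u ⊆ Ioo x₀ x₁ := (ordConnected_Ioo).uIcc_subset hα hu
    have e1 : ∫ y in α..u, (u - y) * h y = ∫ y in α..u, (u * h y - y * h y) := by
      refine intervalIntegral.integral_congr fun y _ => ?_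
      show (u - y) * h y = u * h y - y * h y
      ring
    rw [e1, intervalIntegral.integral_sub, intervalIntegral.integral_const_mul]
    · exact ((hh.mono hsub).intervalIntegrable).const_mul u
    · exact (hh2.mono hsub).intervalIntegrable
  have h3 := h1.congr_of_eventuallyEq h2
  have h4 : 1 * (∫ y in α..x, h y) + x * h x - x * h x = ∫ y in α..x, h y := by ring
  rwa [h4] at h3

end Der

open Der

/-- **JOB CC-37** -/
theorem t_DER : S_DER := by
  intro m x₀ x₁ α β M c hW
  have hα : α ∈ Ioo x₀ x₁ := ⟨hW.h0, hW.hab.trans hW.h1⟩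
  have hm : ContinuousOn m (Ioo x₀ x₁) := hW.smooth.continuousOn
  have hc : ∀ k : ℕ, ContinuousOn (cf m α k) (Ioo x₀ x₁) := by
    intro k
    induction k with
    | zero => exact continuousOn_const
    | succ k ih => exact fun x hx => (conv (hm.mul ih) hα hx).continuousAt.continuousWithinAt
  have hs : ∀ k : ℕ, ContinuousOn (sf m α k) (Ioo x₀ x₁) := by
    intro k
    induction k with
    | zero => exact (continuous_id.sub continuous_const).continuousOn
    | succ k ih => exact fun x hx => (conv (hm.mul ih) hα hx).continuousAt.continuousWithinAt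
  intro k x hx
  refine ⟨?_, ?_, prim (hm.mul (hc k)) hα hx, prim (hm.mul (hs k)) hα hx, hasDerivAt_const x 0, hasDerivAt_const x 1⟩
  · cases k with
    | zero => exact hasDerivAt_const x 1
    | succ k => exact conv (hm.mul (hc k)) hα hx
  · cases k with
    | zero => exact (hasDerivAt_id x).sub_const α
    | succ k => exact conv (hm.mul (hs k)) hα hx

end Pool.Agent.Q252.CC
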