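import Pool.Agent.Q62.CC.Stm

/-!
# Project CC (helper62), job CC-35 (helper252): integration by parts
-/

set_option autoImplicit false

open Set Filter Topology MeasureTheory

namespace Pool.Agent.Q252.CC

open Pool.Agent.Q62.CC

/-- **JOB CC-35** -/
theorem t_DOR (hp1 : S_ODE) : S_DOR := by
  intro m x₀ x₁ α β M c hW l n hl hn
  have hsub : Icc α β ⊆ Ioo x₀ x₁ := fun x hx => ⟨hW.h0.trans_le hx.1, hx.2.trans_lt hW.h1⟩
  have hm : ContinuousOn m (Ioo x₀ x₁) := hW.smooth.continuousOn
  obtain ⟨-, -, ha, -, hL⟩ := hp1 m x₀ x₁ α β M c hW (-l)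
  obtain ⟨-, -, -, -, hN⟩ := hp1 m x₀ x₁ α β M c hW (-n)
  have c1 : ContinuousOn (Sz m α (-l)) (Ioo x₀ x₁) := fun x hx => (hL x hx).2.2.1.continuousAt.continuousWithinAt
  have c2 : ContinuousOn (Sdz m α (-l)) (Ioo x₀ x₁) := fun x hx => (hL x hx).2.2.2.1.continuousAt.continuousWithinAt
  have c3 : ContinuousOn (Sz m α (-n)) (Ioo x₀ x₁) := fun x hx => (hN x hx).2.2.1.continuousAt.continuousWithinAt
  have c4 : ContinuousOn (Sdz m α (-n)) (Ioo x₀ x₁) := fun x hx => (hN x hx).2.2.2.1.continuousAt.continuousWithinAt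
  have i1 : IntervalIntegrable (fun x => Sdz m α (-l) x * Sdz m α (-n) x) volume α β := by
    refine ContinuousOn.intervalIntegrable_of_Icc hW.hab.le ?_
    exact ((c2.mul c4).mono hsub)
  have i2 : IntervalIntegrable (fun x => m x * (Sz m α (-l) x * Sz m α (-n) x)) volume α β := by
    refine ContinuousOn.intervalIntegrable_of_Icc hW.hab.le ?_
    exact ((hm.mul (c1.mul c3)).mono hsub)
  have h1 := intervalIntegral.integral_eq_sub_of_hasDerivAt (a := α) (b := β)
    (f := fun x => Sz m α (-l) x * Sdz m α (-n) x)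
    (f' := fun x => Sdz m α (-l) x * Sdz m α (-n) x - n * (m x * (Sz m α (-l) x * Sz m α (-n) x)))
    (by
      intro x hx
      rw [uIcc_of_le hW.hab.le] at hx
      have h2 := (hL x (hsub hx)).2.2.1.mul (hN x (hsub hx)).2.2.2.1
      refine h2.congr_deriv ?_
      ring)
    (i1.sub (i2.const_mul n))
  rw [intervalIntegral.integral_sub i1 (i2.const_mul n), intervalIntegral.integral_const_mul, ha, hl] at h1
  rw [integral_Icc_eq_integral_Ioc, integral_Icc_eq_integral_Ioc, ← intervalIntegral.integral_of_le hW.hab.le,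
    ← intervalIntegral.integral_of_le hW.hab.le]
  linarith

end Pool.Agent.Q252.CC
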