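import Pool.Agent.Q62.CC.Stm

/-!
# Project CC (helper62), job CC-33 (helper252): bound of the gradient
-/

set_option autoImplicit false

open Set Filter Topology MeasureTheory
open scoped ENNReal ContDiff

namespace Pool.Agent.Q252.CC

open Pool.Agent.Q62.CC
open Pool.Agent.Q61.NC (Sp pd)

namespace Grb

lemma es (r : ℝ) : ‖r‖ₑ ^ 2 = ENNReal.ofReal (r ^ 2) := by
  rw [Real.enorm_eq_ofReal_abs, ← ENNReal.ofReal_pow (abs_nonneg _), sq_abs]

lemma pd_neg {d : ℕ} (i : Fin d) (f : Sp d → ℝ) (x : Sp d) : pd i (fun y => -f y) x = -pd i f x := by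
  unfold pd
  rw [show (fun y => -f y) = -f from rfl, fderiv_neg, ContinuousLinearMap.neg_apply]

lemma core {b xi xl u v : ℝ} (h1 : xi ^ 2 ≤ b ^ 2) (h2 : xl ^ 2 ≤ b ^ 2) (e1 e2 : Prop) [Decidable e1] [Decidable e2] :
    ((if e1 then u else 0) + if e2 then xl * (2 * xi * v) else 0) ^ 2 ≤ 2 * u ^ 2 + 8 * b ^ 4 * v ^ 2 := by
  have h3 : (xl * (2 * xi * v)) ^ 2 ≤ 4 * b ^ 4 * v ^ 2 := by
    have h4 : xl ^ 2 * xi ^ 2 ≤ b ^ 2 * b ^ 2 := mul_le_mul h2 h1 (sq_nonneg _) (sq_nonneg _)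
    have h5 : (xl * (2 * xi * v)) ^ 2 = 4 * (xl ^ 2 * xi ^ 2) * v ^ 2 := by ring
    rw [h5]
    have h6 := mul_le_mul_of_nonneg_right h4 (sq_nonneg v)
    nlinarith
  have h7 : ∀ p q : ℝ, (p + q) ^ 2 ≤ 2 * p ^ 2 + 2 * q ^ 2 := fun p q => by nlinarith [sq_nonneg (p - q)]
  refine (h7 _ _).trans ?_
  have h8 : (if e1 then u else 0) ^ 2 ≤ u ^ 2 := by
    split_ifs
    · exact le_rfl
    · nlinarith [sq_nonneg u]
  have h9 : (if e2 then xl * (2 * xi * v) else 0) ^ 2 ≤ 4 * b ^ 4 * v ^ 2 := by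
    split_ifs
    · exact h3
    · have : 0 ≤ 4 * b ^ 4 * v ^ 2 := by positivity
      simpa using this
  nlinarith

end Grb

open Grb

/-- **JOB CC-33** -/
theorem t_GRB (hp1 : S_LAP) : S_GRB := by
  classical
  intro d j k a b hjk ha hab
  have hb : 0 < b := ha.trans hab
  obtain ⟨K, hK⟩ : ∃ K : ℝ, K = 2 + 8 * b ^ 4 + 4 * b ^ 2 := ⟨_, rfl⟩
  have hK0 : 0 ≤ K := by rw [hK]; positivity
  refine ⟨ENNReal.ofReal ((d : ℝ) * (d * K)), ENNReal.ofReal_ne_top, ?_⟩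
  intro Ω Ωt Ω1 Ω2 q A At A1 A2 Q hR hA t x ht hx
  obtain ⟨hx1, hx2⟩ := hx
  have hN : N2 j k x ∈ Ioo (a ^ 2 / 4) (4 * b ^ 2) := by
    constructor
    · nlinarith [sq_pos_of_pos ha]
    · nlinarith [sq_pos_of_pos hb]
  have hj : (x j) ^ 2 ≤ b ^ 2 := by
    unfold N2 at hx2
    nlinarith [sq_nonneg (x k)]
  have hk : (x k) ^ 2 ≤ b ^ 2 := by
    unfold N2 at hx2
    nlinarith [sq_nonneg (x j)]
  obtain ⟨-, -, hΩ⟩ := hp1 d j k (a ^ 2 / 4) (4 * b ^ 2) (Ω t) (Ω1 t) (Ω2 t) hjk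
    (fun s hs => hR.dx t s ht hs) (fun s hs => hR.dxx t s ht hs) x hN
  have hAx : ∀ n, ∀ i, pd i (fun y => A n t (N2 j k y)) x = if i = j ∨ i = k then 2 * x i * A1 n t (N2 j k x) else 0 :=
    fun n => (hp1 d j k (a ^ 2 / 4) (4 * b ^ 2) (A n t) (A1 n t) (A2 n t) hjk
      (fun s hs => (hA n).dx t s ht hs) (fun s hs => (hA n).dxx t s ht hs) x hN).1
  have hxi : ∀ i, (i = j ∨ i = k) → (x i) ^ 2 ≤ b ^ 2 := by
    rintro i (rfl | rfl)
    · exact hj
    · exact hk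
  -- each entry
  have key : ∀ i n, (pd i (fun y => vel j k Ω A t y n) x) ^ 2 ≤
      K * (Ω t (N2 j k x) ^ 2 + Ω1 t (N2 j k x) ^ 2 + ∑ i, A1 i t (N2 j k x) ^ 2) := by
    intro i n
    have hS : 0 ≤ ∑ i, A1 i t (N2 j k x) ^ 2 := Finset.sum_nonneg fun _ _ => sq_nonneg _
    have hfin : 2 * Ω t (N2 j k x) ^ 2 + 8 * b ^ 4 * Ω1 t (N2 j k x) ^ 2 ≤
        K * (Ω t (N2 j k x) ^ 2 + Ω1 t (N2 j k x) ^ 2 + ∑ i, A1 i t (N2 j k x) ^ 2) := by
      have h1 : 0 ≤ 8 * b ^ 4 + 4 * b ^ 2 := by positivity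
      have h2 : 0 ≤ 2 + 4 * b ^ 2 := by positivity
      have h3 := mul_nonneg h1 (sq_nonneg (Ω t (N2 j k x)))
      have h4 := mul_nonneg h2 (sq_nonneg (Ω1 t (N2 j k x)))
      have h5 := mul_nonneg hK0 hS
      rw [hK] at h5 ⊢
      nlinarith
    have hrot : ∀ l, l = j ∨ l = k → (pd i (fun y => y l * Ω t (N2 j k y)) x) ^ 2 ≤
        2 * Ω t (N2 j k x) ^ 2 + 8 * b ^ 4 * Ω1 t (N2 j k x) ^ 2 := by
      intro l hl
      rw [(hΩ l hl).1 i]
      by_cases hi : i = j ∨ i = k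
      · exact core (hxi i hi) (hxi l hl) _ _
      · rw [if_neg hi, add_zero]
        have h1 : 0 ≤ 8 * b ^ 4 * Ω1 t (N2 j k x) ^ 2 := by positivity
        split_ifs
        · nlinarith [sq_nonneg (Ω t (N2 j k x))]
        · nlinarith [sq_nonneg (Ω t (N2 j k x))]
    by_cases hnj : n = j
    · have e1 : (fun y => vel j k Ω A t y n) = fun y => -(y k * Ω t (N2 j k y)) := by
        funext y
        simp [vel, hnj]
      rw [e1, pd_neg, neg_sq]
      exact (hrot k (Or.inr rfl)).trans hfin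
    · by_cases hnk : n = k
      · have e1 : (fun y => vel j k Ω A t y n) = fun y => y j * Ω t (N2 j k y) := by
          funext y
          simp [vel, hnk, hjk.symm]
        rw [e1]
        exact (hrot j (Or.inl rfl)).trans hfin
      · have e1 : (fun y => vel j k Ω A t y n) = fun y => A n t (N2 j k y) := by
          funext y
          simp [vel, hnj, hnk]
        rw [e1, hAx n i]
        have h0 : A1 n t (N2 j k x) ^ 2 ≤ ∑ i, A1 i t (N2 j k x) ^ 2 :=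
          Finset.single_le_sum (f := fun i => A1 i t (N2 j k x) ^ 2) (fun _ _ => sq_nonneg _) (Finset.mem_univ n)
        have h4b : (if i = j ∨ i = k then 2 * x i * A1 n t (N2 j k x) else 0) ^ 2 ≤
            4 * b ^ 2 * A1 n t (N2 j k x) ^ 2 := by
          by_cases hi : i = j ∨ i = k
          · rw [if_pos hi]
            have := mul_le_mul_of_nonneg_right (hxi i hi) (sq_nonneg (A1 n t (N2 j k x)))
            nlinarith
          · rw [if_neg hi]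
            have : 0 ≤ 4 * b ^ 2 * A1 n t (N2 j k x) ^ 2 := by positivity
            simpa using this
        refine h4b.trans ?_
        have h1 : 4 * b ^ 2 * A1 n t (N2 j k x) ^ 2 ≤ 4 * b ^ 2 * ∑ i, A1 i t (N2 j k x) ^ 2 :=
          mul_le_mul_of_nonneg_left h0 (by positivity)
        have h2 : 0 ≤ 2 + 8 * b ^ 4 := by positivity
        have h3 := mul_nonneg h2 hS
        have h4 := mul_nonneg hK0 (sq_nonneg (Ω t (N2 j k x)))
        have h5 := mul_nonneg hK0 (sq_nonneg (Ω1 t (N2 j k x)))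
        rw [hK] at h4 h5 ⊢
        nlinarith
  -- the sum
  obtain ⟨R, hRdef⟩ : ∃ R : ℝ, R = Ω t (N2 j k x) ^ 2 + Ω1 t (N2 j k x) ^ 2 + ∑ i, A1 i t (N2 j k x) ^ 2 := ⟨_, rfl⟩
  have hRHS : ‖Ω t (N2 j k x)‖ₑ ^ 2 + ‖Ω1 t (N2 j k x)‖ₑ ^ 2 + ∑ i, ‖A1 i t (N2 j k x)‖ₑ ^ 2 = ENNReal.ofReal R := by
    simp only [es]
    rw [hRdef, ENNReal.ofReal_add (by positivity) (Finset.sum_nonneg fun _ _ => sq_nonneg _),
      ENNReal.ofReal_add (sq_nonneg _) (sq_nonneg _), ENNReal.ofReal_sum_of_nonneg (fun _ _ => sq_nonneg _)]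
  have hR0 : 0 ≤ R := by
    rw [hRdef]
    have : 0 ≤ ∑ i, A1 i t (N2 j k x) ^ 2 := Finset.sum_nonneg fun _ _ => sq_nonneg _
    positivity
  rw [hRHS, ← ENNReal.ofReal_mul (by positivity)]
  simp only [es]
  have h1 : ∀ i n, ENNReal.ofReal ((pd i (fun y => vel j k Ω A t y n) x) ^ 2) ≤ ENNReal.ofReal (K * R) := by
    intro i n
    apply ENNReal.ofReal_le_ofReal
    rw [hRdef]
    exact key i n
  refine (Finset.sum_le_sum fun i _ => Finset.sum_le_sum fun n _ => h1 i n).trans ?_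
  rw [Finset.sum_const, Finset.sum_const, Finset.card_univ, Fintype.card_fin, nsmul_eq_mul, nsmul_eq_mul]
  have h2 : ((d : ℕ) : ℝ≥0∞) = ENNReal.ofReal (d : ℝ) := by simp
  rw [h2, ← ENNReal.ofReal_mul (by positivity), ← ENNReal.ofReal_mul (by positivity)]
  apply ENNReal.ofReal_le_ofReal
  apply le_of_eq
  ring

end Pool.Agent.Q252.CC
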